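import Mathlib
import Pool.Agent.H87.NumIdxDef
import Pool.Agent.H87.NumIdx2

namespace Pool.Agent.Results.MP_aef148_an.Neg

open Pool.Agent.H87

/-- There is a real Banach space with an infinite-dimensional closed subspace admitting an
equivalent norm of numerical index one, which itself has no such equivalent norm. -/
theorem result : ∃ (X : Type) (_ : NormedAddCommGroup X) (_ : NormedSpace ℝ X)
    (_ : CompleteSpace X) (Y : Submodule ℝ X),
    IsClosed (Y : Set X) ∧ ¬ FiniteDimensional ℝ Y ∧ RenormIndexOne Y ∧ ¬ RenormIndexOne X := by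
  have e : (LinearMap.ker (ContinuousLinearMap.snd ℝ (L1R.L ℕ) NI.H).toLinearMap) ≃L[ℝ] L1R.L ℕ :=
    ContinuousLinearEquiv.equivOfInverse
      ((ContinuousLinearMap.fst ℝ _ _).comp (Submodule.subtypeL _))
      ((ContinuousLinearMap.inl ℝ _ _).codRestrict _ (fun _ => rfl))
      (fun x => Subtype.ext (Prod.ext rfl (Eq.symm x.2))) (fun _ => rfl)
  refine ⟨L1R.L ℕ × NI.H, inferInstance, inferInstance, inferInstance,
    LinearMap.ker (ContinuousLinearMap.snd ℝ (L1R.L ℕ) NI.H).toLinearMap,
    ContinuousLinearMap.isClosed_ker _, fun h => ?_,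
    ⟨L1R.L ℕ, inferInstance, inferInstance, ⟨e⟩, NI.index_l1⟩, NI.not_renorm⟩
  have h2 : FiniteDimensional ℝ (L1R.L ℕ) := e.toLinearEquiv.finiteDimensional
  have h3 : LinearIndependent ℝ (L1R.dl : ℕ → L1R.L ℕ) :=
    LinearIndependent.of_pairwise_dual_eq_zero_one _ (fun m => (L1R.apL m).toLinearMap)
      (fun i j hij => by simp [L1R.dl_ap, hij]) (fun i => by simp [L1R.dl_ap])
  exact Module.Finite.not_linearIndependent_of_infinite _ h3

end Pool.Agent.Results.MP_aef148_an.Neg
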